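import Pool.Agent.H14.P3.Pm

/-!
# Composition of a sieve for small primes with weights on large primes (helper14)
-/

set_option autoImplicit false
set_option linter.unusedSectionVars false
set_option linter.deprecated false

namespace Pool.Agent.H14.P3

open Finset Pool.Agent.H14.SK

/-- the balanced coefficients of the composition -/
noncomputable def c0 (P1 P2 : Finset ℕ) (cK cL c2 : Finset ℕ → ℝ) (u : ℕ → ℝ) (q : Finset ℕ) : ℝ :=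
  cK (q ∩ P1) * Gt P2 c2 u (q ∩ P2) -
    (cK (q ∩ P1) - cL (q ∩ P1)) * Gt P2 (fun T => |c2 T|) u (q ∩ P2)

lemma c0_expand (P1 P2 : Finset ℕ) (hd : Disjoint P1 P2) (cK cL c2 : Finset ℕ → ℝ) (u x : ℕ → ℝ) :
    ∑ q ∈ (P1 ∪ P2).powerset, c0 P1 P2 cK cL c2 u q * ∏ p ∈ q, (x p - u p) =
      (∑ q ∈ P1.powerset, cK q * ∏ p ∈ q, (x p - u p)) * (∑ d ∈ P2.powerset, c2 d * ∏ p ∈ d, x p) -
      ((∑ q ∈ P1.powerset, cK q * ∏ p ∈ q, (x p - u p)) -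
        (∑ q ∈ P1.powerset, cL q * ∏ p ∈ q, (x p - u p))) *
        (∑ d ∈ P2.powerset, |c2 d| * ∏ p ∈ d, x p) := by
  rw [expand P2 c2 u x, expand P2 (fun T => |c2 T|) u x, ← sum_sub_distrib]
  have h1 : ∑ q ∈ P1.powerset, (cK q * ∏ p ∈ q, (x p - u p) - cL q * ∏ p ∈ q, (x p - u p)) =
      ∑ q ∈ P1.powerset, (cK q - cL q) * ∏ p ∈ q, (x p - u p) := by
    apply sum_congr rfl
    intro q _
    ring
  rw [h1, prod_expand _ _ hd, prod_expand _ _ hd, ← sum_sub_distrib]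
  apply sum_congr rfl
  intro q _
  unfold c0
  ring

/-- the pointwise bound -/
lemma c0_point (P1 P2 : Finset ℕ) (hd : Disjoint P1 P2) (cK cL c2 : Finset ℕ → ℝ) (u x : ℕ → ℝ)
    (hx : ∀ p ∈ P2, 0 ≤ x p) (I : ℝ)
    (h1 : ∑ q ∈ P1.powerset, cL q * ∏ p ∈ q, (x p - u p) ≤ I)
    (h2 : I ≤ ∑ q ∈ P1.powerset, cK q * ∏ p ∈ q, (x p - u p)) :
    ∑ q ∈ (P1 ∪ P2).powerset, c0 P1 P2 cK cL c2 u q * ∏ p ∈ q, (x p - u p) ≤
      I * ∑ d ∈ P2.powerset, c2 d * ∏ p ∈ d, x p := by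
  rw [c0_expand P1 P2 hd]
  set K := ∑ q ∈ P1.powerset, cK q * ∏ p ∈ q, (x p - u p)
  set L := ∑ q ∈ P1.powerset, cL q * ∏ p ∈ q, (x p - u p)
  set U := ∑ d ∈ P2.powerset, c2 d * ∏ p ∈ d, x p with hU
  set V := ∑ d ∈ P2.powerset, |c2 d| * ∏ p ∈ d, x p with hV
  have h3 : U ≤ V := by
    rw [hU, hV]
    apply sum_le_sum
    intro d hd
    apply mul_le_mul_of_nonneg_right (le_abs_self _)
    exact prod_nonneg fun p hp => hx p (mem_powerset.1 hd hp)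
  have h4 : 0 ≤ V := by
    rw [hV]
    apply sum_nonneg
    intro d hd
    apply mul_nonneg (abs_nonneg _)
    exact prod_nonneg fun p hp => hx p (mem_powerset.1 hd hp)
  nlinarith [mul_nonneg (sub_nonneg.2 h2) (sub_nonneg.2 h3), mul_nonneg (sub_nonneg.2 h1) h4]

lemma abs_Gt_le' (P : Finset ℕ) (c : Finset ℕ → ℝ) (K : ℝ) (hK : 0 < K) (hc : ∀ d, |c d| ≤ K) (u : ℕ → ℝ)
    (h0 : ∀ p ∈ P, 0 ≤ u p) (s : Finset ℕ) : |Gt P c u s| ≤ K * Real.exp (∑ p ∈ P, u p) := by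
  have h1 := abs_Gt_le P (fun d => c d / K) (fun d => by
    rw [abs_div, abs_of_pos hK, div_le_one hK]
    exact hc d) u h0 s
  have h2 : Gt P c u s = K * Gt P (fun d => c d / K) u s := by
    unfold Gt
    rw [mul_sum]
    apply sum_congr rfl
    intro m _
    field_simp
  rw [h2, abs_mul, abs_of_pos hK]
  exact mul_le_mul_of_nonneg_left h1 hK.le

lemma Gt_ne (P : Finset ℕ) (c : Finset ℕ → ℝ) (u : ℕ → ℝ) (s : Finset ℕ) (hs : s ⊆ P) (h : Gt P c u s ≠ 0) :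
    ∃ T ⊆ P, s ⊆ T ∧ c T ≠ 0 := by
  unfold Gt at h
  obtain ⟨m, hm, hne⟩ := exists_ne_zero_of_sum_ne_zero h
  rw [mem_powerset] at hm
  exact ⟨s ∪ m, union_subset hs (hm.trans sdiff_subset), subset_union_left, left_ne_zero_of_mul hne⟩

/-- the coefficients of the composition -/
lemma c0_bounds (P1 P2 : Finset ℕ) (hd : Disjoint P1 P2) (hp2 : ∀ p ∈ P2, p.Prime)
    (cK cL c2 : Finset ℕ → ℝ) (u : ℕ → ℝ)
    (hu : ∀ p ∈ P2, 0 ≤ u p) (C e K S f D1 D2 : ℝ) (hC : 1 ≤ C) (hK : 0 < K)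
    (hcK : 0 < cK ∅) (hen : 0 ≤ e) (he : cK ∅ * (1 - e) ≤ cL ∅)
    (h1 : ∀ q ⊆ P1, |cK q| ≤ cK ∅ * C ^ q.card) (h2 : ∀ q ⊆ P1, |cL q| ≤ 2 * cK ∅ * C ^ q.card)
    (hl : ∀ q ⊆ P1, (cK q ≠ 0 ∨ cL q ≠ 0) → ((Pr q : ℕ) : ℝ) ≤ D1)
    (h3 : ∀ d, |c2 d| ≤ K) (hl2 : ∀ q ⊆ P2, c2 q ≠ 0 → ((Pr q : ℕ) : ℝ) ≤ D2) (hS : ∑ p ∈ P2, u p ≤ S)
    (hf : f ≤ ∑ d ∈ P2.powerset, c2 d * ∏ p ∈ d, u p) (he2 : e * (K * Real.exp S) ≤ f / 2) :
    cK ∅ * (f / 2) ≤ c0 P1 P2 cK cL c2 u ∅ ∧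
    (∀ q ⊆ P1 ∪ P2, |c0 P1 P2 cK cL c2 u q| ≤ 4 * (K * Real.exp S) * cK ∅ * C ^ q.card) ∧
    (∀ q ⊆ P1 ∪ P2, c0 P1 P2 cK cL c2 u q ≠ 0 → ((Pr q : ℕ) : ℝ) ≤ D1 * D2) := by
  have hG : ∀ s, |Gt P2 c2 u s| ≤ K * Real.exp S := fun s =>
    (abs_Gt_le' P2 c2 K hK h3 u hu s).trans (mul_le_mul_of_nonneg_left (Real.exp_le_exp.2 hS) hK.le)
  have hG' : ∀ s, |Gt P2 (fun T => |c2 T|) u s| ≤ K * Real.exp S := fun s =>
    (abs_Gt_le' P2 (fun T => |c2 T|) K hK (fun d => by rw [abs_abs]; exact h3 d) u hu s).trans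
      (mul_le_mul_of_nonneg_left (Real.exp_le_exp.2 hS) hK.le)
  have hKS : 0 < K * Real.exp S := mul_pos hK (Real.exp_pos _)
  refine ⟨?_, ?_, ?_⟩
  · unfold c0
    rw [empty_inter, empty_inter, Gt_empty P2 c2 u]
    have h4 : 0 ≤ Gt P2 (fun T => |c2 T|) u ∅ := by
      rw [Gt_empty]
      apply sum_nonneg
      intro d hd
      apply mul_nonneg (abs_nonneg _)
      exact prod_nonneg fun p hp => hu p (mem_powerset.1 hd hp)
    have h5 := (abs_le.1 (hG' ∅)).2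
    have h6 : cK ∅ - cL ∅ ≤ cK ∅ * e := by linarith
    have he0 : (cK ∅ - cL ∅) * Gt P2 (fun T => |c2 T|) u ∅ ≤ cK ∅ * e * Gt P2 (fun T => |c2 T|) u ∅ :=
      mul_le_mul_of_nonneg_right h6 h4
    have h7 : cK ∅ * f ≤ cK ∅ * ∑ d ∈ P2.powerset, c2 d * ∏ p ∈ d, u p :=
      mul_le_mul_of_nonneg_left hf hcK.le
    have h8 : cK ∅ * e * Gt P2 (fun T => |c2 T|) u ∅ ≤ cK ∅ * (f / 2) := by
      calc cK ∅ * e * Gt P2 (fun T => |c2 T|) u ∅ ≤ cK ∅ * e * (K * Real.exp S) :=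
            mul_le_mul_of_nonneg_left h5 (mul_nonneg hcK.le hen)
        _ = cK ∅ * (e * (K * Real.exp S)) := by ring
        _ ≤ _ := mul_le_mul_of_nonneg_left he2 hcK.le
    linarith
  · intro q hq
    have hC0 : 0 < C := by linarith
    have hqc : (q ∩ P1).card ≤ q.card := card_le_card inter_subset_left
    have hCq : C ^ (q ∩ P1).card ≤ C ^ q.card := pow_le_pow_right₀ hC hqc
    have a1 : |cK (q ∩ P1)| ≤ cK ∅ * C ^ q.card :=
      (h1 _ inter_subset_right).trans (mul_le_mul_of_nonneg_left hCq hcK.le)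
    have a2 : |cL (q ∩ P1)| ≤ 2 * cK ∅ * C ^ q.card :=
      (h2 _ inter_subset_right).trans (mul_le_mul_of_nonneg_left hCq (by linarith))
    have a3 := hG (q ∩ P2)
    have a4 := hG' (q ∩ P2)
    have hb0 : 0 ≤ cK ∅ * C ^ q.card := by positivity
    unfold c0
    calc |cK (q ∩ P1) * Gt P2 c2 u (q ∩ P2) -
          (cK (q ∩ P1) - cL (q ∩ P1)) * Gt P2 (fun T => |c2 T|) u (q ∩ P2)|
        ≤ |cK (q ∩ P1) * Gt P2 c2 u (q ∩ P2)| +
          |(cK (q ∩ P1) - cL (q ∩ P1)) * Gt P2 (fun T => |c2 T|) u (q ∩ P2)| := abs_sub _ _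
      _ ≤ (cK ∅ * C ^ q.card) * (K * Real.exp S) +
          (cK ∅ * C ^ q.card + 2 * cK ∅ * C ^ q.card) * (K * Real.exp S) := by
          rw [abs_mul, abs_mul]
          apply add_le_add
          · exact mul_le_mul a1 a3 (abs_nonneg _) hb0
          · apply mul_le_mul _ a4 (abs_nonneg _) (by positivity)
            exact (abs_sub _ _).trans (add_le_add a1 a2)
      _ = _ := by ring
  · intro q hq hne
    have hqp : ((Pr q : ℕ) : ℝ) = ((Pr (q ∩ P1) : ℕ) : ℝ) * ((Pr (q ∩ P2) : ℕ) : ℝ) := by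
      rw [← Nat.cast_mul, ← Pr_union (disjoint_of_subset_left inter_subset_right
        (disjoint_of_subset_right inter_subset_right hd)), ← inter_union_distrib_left,
        inter_eq_left.2 hq]
    have hex : (cK (q ∩ P1) ≠ 0 ∨ cL (q ∩ P1) ≠ 0) ∧
        (Gt P2 c2 u (q ∩ P2) ≠ 0 ∨ Gt P2 (fun T => |c2 T|) u (q ∩ P2) ≠ 0) := by
      constructor
      · by_contra hcon
        push Not at hcon
        apply hne
        unfold c0
        rw [hcon.1, hcon.2]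
        ring
      · by_contra hcon
        push Not at hcon
        apply hne
        unfold c0
        rw [hcon.1, hcon.2]
        ring
    obtain ⟨T, hT1, hT2, hT3⟩ : ∃ T ⊆ P2, q ∩ P2 ⊆ T ∧ c2 T ≠ 0 := by
      rcases hex.2 with h | h
      · exact Gt_ne P2 c2 u _ inter_subset_right h
      · obtain ⟨T, hT1, hT2, hT3⟩ := Gt_ne P2 _ u _ inter_subset_right h
        exact ⟨T, hT1, hT2, abs_ne_zero.1 hT3⟩
    have h4 : ((Pr (q ∩ P2) : ℕ) : ℝ) ≤ D2 := by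
      refine le_trans ?_ (hl2 T hT1 hT3)
      apply Nat.cast_le.2
      unfold Pr
      apply prod_le_prod_of_subset_of_one_le' hT2
      intro p hp _
      exact (hp2 p (hT1 hp)).one_lt.le
    have h5 := hl (q ∩ P1) inter_subset_right hex.1
    rw [hqp]
    have h6 : (0 : ℝ) ≤ ((Pr (q ∩ P2) : ℕ) : ℝ) := Nat.cast_nonneg _
    have h7 : (0 : ℝ) ≤ ((Pr (q ∩ P1) : ℕ) : ℝ) := Nat.cast_nonneg _
    exact mul_le_mul h5 h4 h6 (h7.trans h5)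

end Pool.Agent.H14.P3
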