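import Pool.Agent.H14.P3.Cls

/-!
# Differences of dense sets at which `n ^ 2 + 1` has at most three prime factors (helper14)
-/

set_option autoImplicit false
set_option linter.unusedSectionVars false
set_option linter.deprecated false

namespace Pool.Agent.H14.P3

open Finset Pool.Agent.H14.SK Pool.Agent.Y882.SI Pool.Agent.Y882.PX Pool.Agent.Y882.KW Filter
open Pool.Agent.W23.DC Pool.Agent.Y882

/-- choice of the parameter `w` -/
lemma choose_w' (w₀ : ℕ) (C T ε : ℝ) (hT : 1 ≤ T) (hε : 0 < ε) : ∃ K : ℝ, 1 ≤ K ∧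
    ∀ α : ℝ, 0 < α → α ≤ 1 → ∃ w : ℕ, w₀ ≤ w ∧ (w : ℝ) ≤ 2 * K * α ^ (-(1 + ε)) ∧
      C ≤ (w : ℝ) ^ (1 - 1 / (1 + ε)) ∧ (w : ℝ) ^ (-(1 / (1 + ε))) ≤ α / T := by
  have h1 : 0 < 1 - 1 / (1 + ε) := by
    have : 1 / (1 + ε) < 1 := by
      rw [div_lt_one (by linarith)]
      linarith
    linarith
  have hT0 : 0 < T := by linarith
  obtain ⟨K, hK⟩ : ∃ K : ℝ, 1 ≤ K ∧ (w₀ : ℝ) ≤ K ∧ T ^ (1 + ε) ≤ K ∧
      C ≤ K ^ (1 - 1 / (1 + ε)) := by
    have t1 := (tendsto_rpow_atTop h1).eventually_ge_atTop C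
    obtain ⟨K, hK⟩ := ((t1.and (eventually_ge_atTop 1)).and
      ((eventually_ge_atTop (w₀ : ℝ)).and (eventually_ge_atTop (T ^ (1 + ε))))).exists
    exact ⟨K, hK.1.2, hK.2.1, hK.2.2, hK.1.1⟩
  obtain ⟨k1, k2, k3, k4⟩ := hK
  refine ⟨K, k1, ?_⟩
  intro α hα hα1
  have hα2 : 1 ≤ α ^ (-(1 + ε)) := Real.one_le_rpow_of_pos_of_le_one_of_nonpos hα hα1 (by linarith)
  have hKα : K ≤ K * α ^ (-(1 + ε)) := le_mul_of_one_le_right (by linarith) hα2
  obtain ⟨w, hw⟩ : ∃ w, w = ⌈K * α ^ (-(1 + ε))⌉₊ := ⟨_, rfl⟩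
  have hw1 : K * α ^ (-(1 + ε)) ≤ w := by rw [hw]; exact Nat.le_ceil _
  have hw2 : (w : ℝ) ≤ K * α ^ (-(1 + ε)) + 1 := by
    rw [hw]
    exact (Nat.ceil_lt_add_one (by positivity)).le
  have hKw : K ≤ w := hKα.trans hw1
  have hw0 : (0 : ℝ) < w := by linarith
  refine ⟨w, ?_, ?_, ?_, ?_⟩
  · exact_mod_cast k2.trans hKw
  · linarith
  · exact k4.trans (Real.rpow_le_rpow (by linarith) hKw h1.le)
  · have h2 : (T / α) ^ (1 + ε) ≤ w := by
      rw [Real.div_rpow hT0.le hα.le, div_eq_mul_inv, ← Real.rpow_neg hα.le]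
      exact (mul_le_mul_of_nonneg_right k3 (by positivity)).trans hw1
    have h3 : T / α ≤ (w : ℝ) ^ (1 / (1 + ε)) := by
      have h4 := Real.rpow_le_rpow (by positivity) h2 (show 0 ≤ 1 / (1 + ε) by positivity)
      rwa [← Real.rpow_mul (by positivity), mul_one_div_cancel (by linarith), Real.rpow_one] at h4
    rw [Real.rpow_neg hw0.le, inv_le_comm₀ (by positivity) (by positivity), inv_div]
    exact h3

open Classical in
/-- from the residue classes to the whole set -/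
lemma total (N W : ℕ) (hW0 : 0 < W) (hWN : W ≤ N) (A : Finset ℕ) (α : ℝ)
    (hα : 0 < α) (hcard : α * N ≤ A.card) (G C₅ s : ℝ) (hG : 0 ≤ G) (hC₅ : 0 < C₅)
    (hs2 : s ≤ α / (4 * C₅)) (P : ℕ × ℕ → Prop)
    (hcls : ∀ r : ℕ, G * ((Ac A W r).card * ((Ac A W r).card - C₅ * ((N / W + 1 : ℕ) : ℝ) * s)) ≤
      (((Ac A W r ×ˢ Ac A W r).filter P).card : ℝ)) :
    G * (α ^ 2 * N ^ 2 / (2 * W)) ≤ (((A ×ˢ A).filter P).card : ℝ) := by
  have hW0r : (0 : ℝ) < W := by exact_mod_cast hW0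
  have hN0 : (0 : ℝ) < N := by exact_mod_cast (by omega : 0 < N)
  have hA0 : 0 < (A.card : ℝ) := lt_of_lt_of_le (by positivity) hcard
  obtain ⟨nr, hnr⟩ : ∃ nr : ℕ → ℝ, nr = fun r => ((Ac A W r).card : ℝ) := ⟨_, rfl⟩
  have hnr0 : ∀ r, 0 ≤ nr r := fun r => by rw [hnr]; positivity
  have hsum : ∑ r ∈ range W, nr r = A.card := by
    rw [hnr, ← Nat.cast_sum, sum_Ac A W hW0]
  have hsq : (A.card : ℝ) ^ 2 ≤ W * ∑ r ∈ range W, nr r ^ 2 := by
    have h1 := sq_sum_le_card_mul_sum_sq (s := range W) (f := nr)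
    rw [hsum, card_range] at h1
    exact h1
  have hsm : C₅ * ((N / W + 1 : ℕ) : ℝ) * s ≤ A.card / (2 * W) := by
    have h1 := hMle N W hW0 hWN
    have h3 : (0 : ℝ) ≤ ((N / W + 1 : ℕ) : ℝ) := Nat.cast_nonneg _
    calc C₅ * ((N / W + 1 : ℕ) : ℝ) * s ≤ C₅ * ((N / W + 1 : ℕ) : ℝ) * (α / (4 * C₅)) :=
          mul_le_mul_of_nonneg_left hs2 (by positivity)
      _ ≤ C₅ * (2 * (N / W)) * (α / (4 * C₅)) := by gcongr
      _ = α * N / (2 * W) := by field_simp; norm_num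
      _ ≤ _ := div_le_div_of_nonneg_right hcard (by positivity)
  have htot : ∑ r ∈ range W, (((Ac A W r ×ˢ Ac A W r).filter P).card : ℝ) ≤
      (((A ×ˢ A).filter P).card : ℝ) := by
    rw [← Nat.cast_sum, Nat.cast_le, ← card_biUnion]
    · apply card_le_card
      intro x hx
      rw [mem_biUnion] at hx
      obtain ⟨r, _, hx⟩ := hx
      rw [mem_filter, mem_product] at hx ⊢
      exact ⟨⟨(mem_filter.1 hx.1.1).1, (mem_filter.1 hx.1.2).1⟩, hx.2⟩
    · intro r _ r' _ hrr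
      show Disjoint _ _
      rw [Finset.disjoint_left]
      intro x hx hx'
      rw [mem_filter, mem_product] at hx hx'
      exact hrr ((mem_filter.1 hx.1.1).2.symm.trans (mem_filter.1 hx'.1.1).2)
  refine le_trans ?_ ((sum_le_sum fun r _ => hcls r).trans htot)
  have hstep : ∀ r ∈ range W, G * (nr r ^ 2 - A.card / (2 * W) * nr r) ≤
      G * ((Ac A W r).card * ((Ac A W r).card - C₅ * ((N / W + 1 : ℕ) : ℝ) * s)) := by
    intro r _
    apply mul_le_mul_of_nonneg_left _ hG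
    have h4 : nr r = ((Ac A W r).card : ℝ) := by rw [hnr]
    rw [← h4]
    have h5 := mul_le_mul_of_nonneg_right hsm (hnr0 r)
    nlinarith
  refine le_trans ?_ (sum_le_sum hstep)
  rw [← mul_sum, sum_sub_distrib, ← mul_sum, hsum]
  apply mul_le_mul_of_nonneg_left _ hG
  have h6 : (A.card : ℝ) ^ 2 / W ≤ ∑ r ∈ range W, nr r ^ 2 := by
    rw [div_le_iff₀ hW0r]
    linarith
  have h7 : (α * N) ^ 2 ≤ (A.card : ℝ) ^ 2 := pow_le_pow_left₀ (by positivity) hcard 2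
  calc α ^ 2 * N ^ 2 / (2 * W) = (α * N) ^ 2 / (2 * W) := by ring
    _ ≤ (A.card : ℝ) ^ 2 / (2 * W) := div_le_div_of_nonneg_right h7 (by positivity)
    _ = (A.card : ℝ) ^ 2 / W - A.card / (2 * W) * A.card := by
        field_simp
        ring
    _ ≤ _ := by linarith

/-- `m` is divisible by the square of a prime in the weighted range -/
def BadV (N m : ℕ) : Prop := ∃ q ∈ pr N zet ups, q ^ 2 ∣ m

lemma rows (A : Finset ℕ) (P : ℕ → ℕ → Prop) [∀ a b, Decidable (P a b)] (s : ℕ)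
    (h : ∀ a ∈ A, (A.filter (fun b : ℕ => P a b)).card ≤ s) :
    ((A ×ˢ A).filter (fun x => P x.1 x.2)).card ≤ A.card * s := by
  rw [card_filter, sum_product]
  calc ∑ a ∈ A, ∑ b ∈ A, (if P a b then 1 else 0) ≤ ∑ a ∈ A, s := by
        apply sum_le_sum
        intro a ha
        have := h a ha
        rw [card_filter] at this
        exact this
    _ = A.card * s := by rw [sum_const, smul_eq_mul]

open Classical in
/-- one row -/
lemma bad_row (N : ℕ) (hN2 : 2 ≤ N) (h : ℤ) (hh : |h| ≤ N) (A : Finset ℕ) (hA : A ⊆ Icc 1 N) (S : Finset ℕ)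
    (hS : ∀ n : ℕ, 1 ≤ n → n ≤ 2 * N → BadV N (n ^ 2 + 1) → n ∈ S) (a : ℕ) (ha : a ∈ A) :
    (A.filter (fun b : ℕ => BadV N ((h + ((b : ℤ) - a)) ^ 2 + 1).natAbs)).card ≤ 2 * S.card := by
  have haN := mem_Icc.1 (hA ha)
  have hsub : A.filter (fun b : ℕ => BadV N ((h + ((b : ℤ) - a)) ^ 2 + 1).natAbs) ⊆
      A.filter (fun b : ℕ => 0 < h + ((b : ℤ) - a) ∧ (h + ((b : ℤ) - a)).natAbs ∈ S) ∪
      A.filter (fun b : ℕ => h + ((b : ℤ) - a) < 0 ∧ (h + ((b : ℤ) - a)).natAbs ∈ S) := by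
    intro b hb'
    rw [mem_filter] at hb'
    obtain ⟨hbA, hbad⟩ := hb'
    have hbN := mem_Icc.1 (hA hbA)
    obtain ⟨n, hn⟩ : ∃ n : ℤ, n = h + ((b : ℤ) - a) := ⟨_, rfl⟩
    rw [← hn] at hbad
    have e : (n ^ 2 + 1).natAbs = n.natAbs ^ 2 + 1 := by
      have h1 : (((n ^ 2 + 1).natAbs : ℕ) : ℤ) = ((n.natAbs ^ 2 + 1 : ℕ) : ℤ) := by
        rw [Int.natCast_natAbs, abs_of_pos (by positivity)]
        push_cast
        rw [sq_abs]
      exact_mod_cast h1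
    rw [e] at hbad
    have hn0 : n ≠ 0 := by
      intro h0
      rw [h0] at hbad
      obtain ⟨q, hq, hqd⟩ := hbad
      have hq1 := (pr_mem N q zet ups hN2 hq).1
      have h1 : q ^ 2 ∣ 1 := by simpa using hqd
      have h2 := Nat.le_of_dvd (by norm_num) h1
      have := hq1.two_le
      nlinarith
    have hnabs : n.natAbs ∈ S := by
      apply hS _ _ _ hbad
      · have := Int.natAbs_pos.2 hn0
        omega
      · have hh' := abs_le.1 hh
        omega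
    rw [mem_union, mem_filter, mem_filter, ← hn]
    rcases lt_or_gt_of_ne hn0 with h5 | h5
    · right; exact ⟨hbA, h5, hnabs⟩
    · left; exact ⟨hbA, h5, hnabs⟩
  have hc1 : (A.filter (fun b : ℕ => 0 < h + ((b : ℤ) - a) ∧ (h + ((b : ℤ) - a)).natAbs ∈ S)).card ≤ S.card := by
    apply card_le_card_of_injOn (fun b : ℕ => (h + ((b : ℤ) - a)).natAbs)
    · intro b hb'
      simp only [coe_filter, Set.mem_setOf_eq] at hb'
      exact hb'.2.2
    · intro b hb' b' hb'' he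
      simp only [coe_filter, Set.mem_setOf_eq] at hb' hb''
      have he' : (h + ((b : ℤ) - a)).natAbs = (h + ((b' : ℤ) - a)).natAbs := he
      have k1 := hb'.2.1
      have k2 := hb''.2.1
      omega
  have hc2 : (A.filter (fun b : ℕ => h + ((b : ℤ) - a) < 0 ∧ (h + ((b : ℤ) - a)).natAbs ∈ S)).card ≤ S.card := by
    apply card_le_card_of_injOn (fun b : ℕ => (h + ((b : ℤ) - a)).natAbs)
    · intro b hb'
      simp only [coe_filter, Set.mem_setOf_eq] at hb'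
      exact hb'.2.2
    · intro b hb' b' hb'' he
      simp only [coe_filter, Set.mem_setOf_eq] at hb' hb''
      have he' : (h + ((b : ℤ) - a)).natAbs = (h + ((b' : ℤ) - a)).natAbs := he
      have k1 := hb'.2.1
      have k2 := hb''.2.1
      omega
  have h9 := (card_le_card hsub).trans (card_union_le _ _)
  omega

open Classical in
/-- the pairs at which the value is divisible by the square of a prime in the weighted range -/
lemma bad_pairs : ∃ N₀ : ℕ, ∀ N : ℕ, N₀ ≤ N → ∀ h : ℤ, |h| ≤ N → ∀ A : Finset ℕ, A ⊆ Icc 1 N →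
    (((A ×ˢ A).filter (fun x => BadV N ((h + ((x.2 : ℤ) - x.1)) ^ 2 + 1).natAbs)).card : ℝ) ≤
      20 * N * (N : ℝ) ^ (9 / 10 : ℝ) := by
  have hzv := zet_val
  have huv := ups_val
  obtain ⟨Y0, hY0⟩ := bad_count 1 one_ne_zero zet ups (by rw [hzv]; norm_num) (by rw [hzv, huv]; norm_num)
    (by rw [huv]; norm_num)
  refine ⟨max Y0 2, fun N hN h hh A hA => ?_⟩
  have hN2 : 2 ≤ N := (le_max_right _ _).trans hN
  have hN0 : (0 : ℝ) < N := by exact_mod_cast (by omega : 0 < N)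
  have hN1 : (1 : ℝ) ≤ N := by exact_mod_cast (by omega : 1 ≤ N)
  have hb := hY0 N ((le_max_left _ _).trans hN) (2 * N)
  obtain ⟨S, hS⟩ : ∃ S : Finset ℕ, S = (Icc 1 (2 * N)).filter (Bad 1 N zet ups) := ⟨_, rfl⟩
  rw [← hS] at hb
  have hbS : (S.card : ℝ) ≤ 10 * (N : ℝ) ^ (9 / 10 : ℝ) := by
    refine hb.trans ?_
    rw [hzv, huv]
    have e1 : ((2 * N : ℕ) : ℝ) / (N : ℝ) ^ (39 / 100 : ℝ) = 2 * (N : ℝ) ^ (61 / 100 : ℝ) := by
      rw [div_eq_iff (by positivity), mul_assoc, ← Real.rpow_add hN0]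
      push_cast
      norm_num
    rw [e1]
    have h1 : (N : ℝ) ^ (61 / 100 : ℝ) ≤ (N : ℝ) ^ (9 / 10 : ℝ) :=
      Real.rpow_le_rpow_of_exponent_le hN1 (by norm_num)
    have h2 : (N : ℝ) ^ (351 / 400 : ℝ) ≤ (N : ℝ) ^ (9 / 10 : ℝ) :=
      Real.rpow_le_rpow_of_exponent_le hN1 (by norm_num)
    linarith
  have hS' : ∀ n : ℕ, 1 ≤ n → n ≤ 2 * N → BadV N (n ^ 2 + 1) → n ∈ S := by
    intro n hn1 hn2 hbad
    rw [hS, mem_filter, mem_Icc]
    refine ⟨⟨hn1, hn2⟩, ?_⟩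
    obtain ⟨q, hq, hqd⟩ := hbad
    refine ⟨q, hq, ?_⟩
    exact_mod_cast hqd
  have hAN : A.card ≤ N := by
    have := card_le_card hA
    rwa [Nat.card_Icc, Nat.add_sub_cancel] at this
  have hcnt := (rows A (fun a b : ℕ => BadV N ((h + ((b : ℤ) - a)) ^ 2 + 1).natAbs) (2 * S.card)
    (fun a ha => bad_row N hN2 h hh A hA S hS' a ha)).trans (Nat.mul_le_mul_right _ hAN)
  have hcnt' : (((A ×ˢ A).filter (fun x => BadV N ((h + ((x.2 : ℤ) - x.1)) ^ 2 + 1).natAbs)).card : ℝ) ≤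
      N * (2 * S.card) := by
    exact_mod_cast hcnt
  refine hcnt'.trans ?_
  calc (N : ℝ) * (2 * S.card) ≤ N * (2 * (10 * (N : ℝ) ^ (9 / 10 : ℝ))) := by gcongr
    _ = _ := by ring

end Pool.Agent.H14.P3
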