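import Pool.Agent.H14.P3.Rho

/-!
# Parameters and the pointwise inequality (helper14)
-/

set_option autoImplicit false
set_option linter.unusedSectionVars false
set_option linter.deprecated false

namespace Pool.Agent.H14.P3

open Finset Pool.Agent.H14.SK Pool.Agent.Y882.SI Pool.Agent.Y882.PX Pool.Agent.Y882.KW
open Pool.Agent.W23.DC Pool.Agent.Y882

/-- the level of the weighted linear sieve -/
noncomputable def tau : ℝ := 39 / 40
/-- the sifting exponent -/
noncomputable def zet : ℝ := 2 / 5 * tau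
/-- the exponent of the range of the weights -/
noncomputable def ups : ℝ := 9 / 10 * tau
/-- the weight -/
noncomputable def lam : ℝ := 20 / 31

lemma zet_val : zet = 39 / 100 := by unfold zet tau; norm_num
lemma ups_val : ups = 351 / 400 := by unfold ups tau; norm_num

lemma pow_bd (B : ℕ) : (4 * (B : ℝ) + 6) ^ 2 ≤ 100 * 2 ^ B := by
  induction B with
  | zero => norm_num
  | succ B ih =>
    rcases Nat.lt_or_ge B 3 with h | h
    · interval_cases B <;> norm_num
    · have hB : (3 : ℝ) ≤ B := by exact_mod_cast h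
      push_cast
      have h1 : (2 : ℝ) ^ (B + 1) = 2 * 2 ^ B := by rw [pow_succ]; ring
      rw [h1]
      nlinarith

lemma params (E K f0 : ℝ) (hE : 0 < E) (hK : 0 < K) (hf0 : 0 < f0) : ∃ (B : ℕ) (ε₁ : ℝ), 0 < ε₁ ∧
    ε₁ * (4 * B + 6) = 1 / 80 ∧ ε₁ ≤ 1 / 480 ∧ E * (1 / 4) ^ B ≤ 1 ∧
    E * (1 / 4) ^ B * (K * Real.exp (Real.log (ups / ε₁) + 1)) ≤ ε₁ * f0 / 2 := by
  obtain ⟨t, ht⟩ : ∃ t : ℝ, t = min (1 / E) (f0 / (E * K * 6 * 100 * 6400)) := ⟨_, rfl⟩
  have ht0 : 0 < t := by rw [ht]; positivity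
  obtain ⟨B, hB⟩ := exists_pow_lt_of_lt_one ht0 (show (1 / 2 : ℝ) < 1 by norm_num)
  have hB1 : (1 / 2 : ℝ) ^ B ≤ 1 / E := (hB.le.trans (by rw [ht]; exact min_le_left _ _))
  have hB2 : (1 / 2 : ℝ) ^ B ≤ f0 / (E * K * 6 * 100 * 6400) :=
    (hB.le.trans (by rw [ht]; exact min_le_right _ _))
  have hB0 : (0 : ℝ) < 4 * B + 6 := by positivity
  have h41 : (1 / 4 : ℝ) ^ B ≤ (1 / 2) ^ B := pow_le_pow_left₀ (by norm_num) (by norm_num) B
  have h42 : (1 / 4 : ℝ) ^ B = (1 / 2) ^ B * (1 / 2) ^ B := by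
    rw [← mul_pow]
    norm_num
  refine ⟨B, 1 / 80 / (4 * B + 6), by positivity, by field_simp, ?_, ?_, ?_⟩
  · rw [div_le_iff₀ hB0]
    have : (0 : ℝ) ≤ B := Nat.cast_nonneg _
    linarith
  · calc E * (1 / 4) ^ B ≤ E * (1 / 2) ^ B := mul_le_mul_of_nonneg_left h41 hE.le
      _ ≤ E * (1 / E) := mul_le_mul_of_nonneg_left hB1 hE.le
      _ = 1 := by field_simp
  · have hups : 0 < ups := by rw [ups_val]; norm_num
    have hups1 : ups ≤ 1 := by rw [ups_val]; norm_num
    rw [Real.exp_add, Real.exp_log (by positivity)]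
    have he : Real.exp 1 ≤ 3 := by linarith [Real.exp_one_lt_d9]
    have hb := pow_bd B
    have e1 : ups / (1 / 80 / (4 * B + 6)) = 80 * ups * (4 * B + 6) := by
      field_simp
    rw [e1]
    have h2B : (2 : ℝ) ^ B * (1 / 2) ^ B = 1 := by
      rw [← mul_pow]
      norm_num
    calc E * (1 / 4) ^ B * (K * (80 * ups * (4 * B + 6) * Real.exp 1))
        ≤ E * ((1 / 2) ^ B * (1 / 2) ^ B) * (K * (80 * 1 * (4 * B + 6) * 3)) := by
          rw [h42]
          gcongr
      _ = (E * K * 240) * ((1 / 2) ^ B * (80 * (4 * B + 6) ^ 2)) * (1 / 2) ^ B / (80 * (4 * B + 6)) := by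
          field_simp
          norm_num
      _ ≤ (E * K * 240) * ((1 / 2) ^ B * (80 * (100 * 2 ^ B))) * (f0 / (E * K * 6 * 100 * 6400)) /
            (80 * (4 * B + 6)) := by
          gcongr
      _ = (E * K * 240) * (80 * 100 * (2 ^ B * (1 / 2) ^ B)) * (f0 / (E * K * 6 * 100 * 6400)) /
            (80 * (4 * B + 6)) := by
          ring
      _ = 1 / 80 / (4 * B + 6) * f0 / 2 := by
          rw [h2B]
          field_simp
          norm_num

open Classical in
lemma point (N : ℕ) (hN : 2 ≤ N) (ε₁ : ℝ) (w z W : ℕ) (hz : z = ⌈(N : ℝ) ^ ε₁⌉₊ - 1)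
    (hW : ∀ p : ℕ, p.Prime → p ≤ w → p ∣ W) (a : ℤ) (hh : ∀ p : ℕ, p.Prime → p ≤ w → ¬ (p : ℤ) ∣ a ^ 2 + 1)
    (cL : Finset ℕ → ℝ)
    (hcL : ∀ M : ℕ, VV (pr N ε₁ ups) cL (fun p => if p ∣ M then 1 else 0) ≤
      WB N ε₁ zet ups lam (lam / ups) M) (n : ℤ) :
    (if Sft (TQ a W) w z n then (1 : ℝ) else 0) * ∑ d ∈ (pr N ε₁ ups).powerset,
      cL d * ∏ p ∈ d, (if TQ a W p n then (1 : ℝ) else 0) ≤
    if 0 < WW N zet ups lam (lam / ups) ((a + (W : ℤ) * n) ^ 2 + 1).natAbs then 1 else 0 := by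
  obtain ⟨M, hM⟩ : ∃ M : ℕ, M = ((a + (W : ℤ) * n) ^ 2 + 1).natAbs := ⟨_, rfl⟩
  have hdv : ∀ p : ℕ, TQ a W p n ↔ p ∣ M := by
    intro p
    unfold TQ
    rw [hM]
    exact Int.natCast_dvd
  have e1 : ∑ d ∈ (pr N ε₁ ups).powerset, cL d * ∏ p ∈ d, (if TQ a W p n then (1 : ℝ) else 0) =
      VV (pr N ε₁ ups) cL (fun p => if p ∣ M then 1 else 0) := by
    unfold VV
    apply sum_congr rfl
    intro d _
    congr 1
    apply prod_congr rfl
    intro p _
    show (if TQ a W p n then (1 : ℝ) else 0) = if p ∣ M then 1 else 0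
    by_cases h : p ∣ M
    · rw [if_pos ((hdv p).2 h), if_pos h]
    · rw [if_neg (fun h' => h ((hdv p).1 h')), if_neg h]
  rw [e1, ← hM]
  by_cases hs : Sft (TQ a W) w z n
  · rw [if_pos hs, one_mul]
    refine (hcL M).trans ?_
    have hsmall : ∀ p : ℕ, p.Prime → tt N p < ε₁ → ¬ p ∣ M := by
      intro p hp hlt hd
      by_cases hpw : p ≤ w
      · apply hh p hp hpw
        have h2 : (p : ℤ) ∣ (a + (W : ℤ) * n) ^ 2 + 1 := by
          rw [Int.natCast_dvd, ← hM]
          exact hd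
        refine (sq_per p _ _ ?_).1 h2
        rw [add_sub_cancel_left]
        exact (Int.natCast_dvd_natCast.2 (hW p hp hpw)).mul_right _
      · apply hs p hp (by omega) _ ((hdv p).2 hd)
        have h1 := (tt_lt N p ε₁ hN hp.pos).1 hlt
        have h2 := Nat.lt_ceil.2 h1
        omega
    have e2 : WB N ε₁ zet ups lam (lam / ups) M = WW N zet ups lam (lam / ups) M := by
      unfold WB WW
      congr 1
      have hiff : (∀ p ∈ pr N ε₁ zet, ¬ p ∣ M) ↔ (∀ p ∈ PZ N zet, ¬ p ∣ M) := by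
        constructor
        · intro h p hp
          unfold PZ at hp
          rw [mem_filter] at hp
          by_cases hlt : tt N p < ε₁
          · exact hsmall p hp.2.1 hlt
          · apply h p
            unfold pr
            rw [mem_filter]
            exact ⟨hp.1, hp.2.1, not_lt.1 hlt, hp.2.2⟩
        · intro h p hp
          apply h p
          unfold pr at hp
          unfold PZ
          rw [mem_filter] at hp ⊢
          exact ⟨hp.1, hp.2.1, hp.2.2.2⟩
      by_cases h : ∀ p ∈ pr N ε₁ zet, ¬ p ∣ M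
      · rw [if_pos h, if_pos (hiff.1 h)]
      · rw [if_neg h, if_neg (fun h' => h (hiff.2 h'))]
    rw [e2]
    have hups : 0 < ups := by rw [ups_val]; norm_num
    have hlam : 0 < lam := by unfold lam; norm_num
    have hle := WW_le_one N zet ups lam (lam / ups) (by positivity)
      (le_of_eq (div_mul_cancel₀ _ hups.ne')) M
    by_cases h : 0 < WW N zet ups lam (lam / ups) M
    · rw [if_pos h]
      exact hle
    · rw [if_neg h]
      exact not_lt.1 h
  · rw [if_neg hs, zero_mul]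
    split_ifs <;> norm_num

end Pool.Agent.H14.P3
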