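import Pool.Agent.H14.SK.Sieve

/-!
# Upper and lower bound sieves with balanced expansions and arbitrary accuracy (helper14)
-/

set_option autoImplicit false
set_option linter.unusedSectionVars false
set_option linter.deprecated false

namespace Pool.Agent.H14.P3

open Finset Pool.Agent.H14.SK

open Classical in
/-- **Upper and lower bound sieve with their balanced expansions.** -/
theorem sieve_pm (g : ℕ) : ∃ (E C : ℝ), 0 < E ∧ 1 ≤ C ∧ ∀ (B : ℕ), E * (1 / 4) ^ B ≤ 1 →
    ∀ (T : ℕ → ℤ → Prop) [∀ p n, Decidable (T p n)],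
    (∀ p : ℕ, p.Prime → rho T p ≤ g) → ∀ (w z : ℕ), 3 ≤ w → 2 * g ≤ w → 1 ≤ z →
    ∃ cK cL : Finset ℕ → ℝ, 0 < cK ∅ ∧
      (∏ p ∈ (Ioc w z).filter Nat.Prime, (1 - (rho T p : ℝ) / p)) ≤ cK ∅ ∧
      cK ∅ * (1 - E * (1 / 4) ^ B) ≤ cL ∅ ∧
      (∀ q ⊆ (Ioc w z).filter Nat.Prime, |cK q| ≤ cK ∅ * C ^ q.card) ∧
      (∀ q ⊆ (Ioc w z).filter Nat.Prime, |cL q| ≤ 2 * cK ∅ * C ^ q.card) ∧
      (∀ q ⊆ (Ioc w z).filter Nat.Prime, (cK q ≠ 0 ∨ cL q ≠ 0) → Pr q ≤ z ^ (4 * B + 6)) ∧
      (∀ n : ℤ, ∑ q ∈ ((Ioc w z).filter Nat.Prime).powerset,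
        cL q * ∏ p ∈ q, ((if T p n then (1 : ℝ) else 0) - (rho T p : ℝ) / p) ≤
        (if Sft T w z n then 1 else 0) ∧
        (if Sft T w z n then 1 else 0) ≤ ∑ q ∈ ((Ioc w z).filter Nat.Prime).powerset,
        cK q * ∏ p ∈ q, ((if T p n then (1 : ℝ) else 0) - (rho T p : ℝ) / p)) := by
  obtain ⟨C0, hC0, hblock⟩ := block_sum
  obtain ⟨S, hS⟩ : ∃ S : ℝ, S = g * C0 := ⟨_, rfl⟩
  have hS0 : 0 ≤ S := by rw [hS]; positivity
  obtain ⟨v, hv⟩ : ∃ v : ℝ, v = Real.exp (-(2 * S)) := ⟨_, rfl⟩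
  have hv0 : 0 < v := by rw [hv]; positivity
  obtain ⟨C, hC⟩ : ∃ C : ℝ, C = 2 * Real.exp (3 * S) := ⟨_, rfl⟩
  have hC1 : 1 ≤ C := by
    rw [hC]
    have := Real.one_le_exp (show 0 ≤ 3 * S by positivity)
    linarith
  obtain ⟨F, hF⟩ : ∃ F : ℝ, F = Real.exp (2 * S) / v := ⟨_, rfl⟩
  have hF0 : 0 < F := by rw [hF]; positivity
  refine ⟨F, C, hF0, hC1, ?_⟩
  intro B hB T _ hg w z hw hgw hz
  set u : ℕ → ℝ := fun p => (rho T p : ℝ) / p with hu
  have hprime : ∀ p ∈ PP (PB w z) z, p.Prime := by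
    intro p hp
    rw [PB_cover, mem_filter] at hp
    exact hp.2
  have hwp : ∀ p ∈ PP (PB w z) z, w < p := by
    intro p hp
    rw [PB_cover, mem_filter, mem_Ioc] at hp
    exact hp.1.1
  have hu0 : ∀ p, 0 ≤ u p := fun p => by simp only [hu]; positivity
  have hug : ∀ p : ℕ, p.Prime → u p ≤ g * (1 / (p : ℝ)) := by
    intro p hp
    simp only [hu]
    rw [mul_one_div]
    apply div_le_div_of_nonneg_right _ (by positivity)
    exact_mod_cast hg p hp
  have hug2 : ∀ p : ℕ, p.Prime → w < p → u p ≤ 1 / 2 := by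
    intro p hp hpw
    refine (hug p hp).trans ?_
    have hp0 : (0 : ℝ) < p := by exact_mod_cast hp.pos
    rw [mul_one_div, div_le_iff₀ hp0]
    have h1 : (2 * g : ℝ) ≤ p := by exact_mod_cast (by omega : 2 * g ≤ p)
    linarith
  have hmem : ∀ j < z, ∀ p ∈ PB w z j, p ∈ PP (PB w z) z := fun j hj p hp =>
    mem_biUnion.2 ⟨j, mem_range.2 hj, hp⟩
  have hsumS : ∀ j < z, ∑ p ∈ PB w z j, u p ≤ S := by
    intro j hj
    calc ∑ p ∈ PB w z j, u p ≤ ∑ p ∈ PB w z j, g * (1 / (p : ℝ)) :=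
          sum_le_sum fun p hp => hug p (hprime p (hmem j hj p hp))
      _ = g * ∑ p ∈ PB w z j, 1 / (p : ℝ) := by rw [mul_sum]
      _ ≤ S := by
          rw [hS]
          exact mul_le_mul_of_nonneg_left (hblock w z j hw) (by positivity)
  have hexp : ∀ x : ℝ, 0 ≤ x → x ≤ 1 / 2 → Real.exp (-(2 * x)) ≤ 1 - x := by
    intro x hx0 hx1
    have h1 : Real.exp (-(2 * x)) * Real.exp (2 * x) = 1 := by
      rw [← Real.exp_add, neg_add_cancel, Real.exp_zero]
    have h2 := Real.add_one_le_exp (2 * x)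
    have h3 : 0 < Real.exp (-(2 * x)) := Real.exp_pos _
    have h4 : Real.exp (-(2 * x)) * (2 * x + 1) ≤ 1 := by
      calc _ ≤ Real.exp (-(2 * x)) * Real.exp (2 * x) := mul_le_mul_of_nonneg_left h2 h3.le
        _ = 1 := h1
    have h5 : 1 ≤ (1 - x) * (2 * x + 1) := by nlinarith
    by_contra hcon
    push Not at hcon
    have h6 : (1 - x) * (2 * x + 1) < Real.exp (-(2 * x)) * (2 * x + 1) :=
      mul_lt_mul_of_pos_right hcon (by linarith)
    linarith
  obtain ⟨e, he⟩ : ∃ e : ℕ → ℝ, e = fun j => F * (1 / 4) ^ B * (1 / 2) ^ (j + 1) := ⟨_, rfl⟩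
  have he0 : ∀ j, 0 ≤ e j := fun j => by rw [he]; positivity
  have hesum : ∑ j ∈ range z, e j ≤ F * (1 / 4) ^ B := by
    rw [he, ← mul_sum]
    have h2 : ∑ j ∈ range z, ((1 : ℝ) / 2) ^ (j + 1) ≤ 1 := by
      have h1 : ∑ j ∈ range z, ((1 : ℝ) / 2) ^ (j + 1) = 1 / 2 * ∑ j ∈ range z, (1 / 2) ^ j := by
        rw [mul_sum]
        apply sum_congr rfl
        intro j _
        rw [pow_succ]
        ring
      have := (summable_geometric_of_lt_one (show (0 : ℝ) ≤ 1 / 2 by norm_num)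
        (by norm_num)).sum_le_tsum (range z) (fun i _ => by positivity)
      rw [tsum_geometric_of_lt_one (by norm_num) (by norm_num)] at this
      rw [h1]
      norm_num at this ⊢
      linarith
    exact mul_le_of_le_one_right (by positivity) h2
  have hbd := bounds (P := PB w z) (b := fun j => 2 * (B + j)) (PB_disj w z) (fun j => even_two_mul _) u z
    (fun p _ => hu0 p) (fun p hp => (hug2 p (hprime p hp) (hwp p hp)).trans (by norm_num)) S v C
    hsumS hv0 (by
      intro j hj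
      calc v ≤ Real.exp (∑ p ∈ PB w z j, (-(2 * u p))) := by
            rw [hv]
            apply Real.exp_le_exp.2
            rw [sum_neg_distrib, ← mul_sum]
            have := hsumS j hj
            linarith
        _ = ∏ p ∈ PB w z j, Real.exp (-(2 * u p)) := Real.exp_sum _ _
        _ ≤ ∏ p ∈ PB w z j, (1 - u p) := by
            apply prod_le_prod (fun _ _ => (Real.exp_pos _).le)
            intro p hp
            have hp' := hmem j hj p hp
            exact hexp _ (hu0 p) (hug2 p (hprime p hp') (hwp p hp')))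
    hC1 (by
      rw [hv, hC]
      have : Real.exp (-(2 * S)) * (2 * Real.exp (3 * S)) = 2 * (Real.exp (-(2 * S)) * Real.exp (3 * S)) := by
        ring
      rw [this, ← Real.exp_add]
      apply le_of_eq
      congr 2
      ring)
    e (by
      intro j hj
      refine (ES_le _ _ u fun p _ => hu0 p).trans ?_
      have h1 : Real.exp (2 * ∑ p ∈ PB w z j, u p) ≤ Real.exp (2 * S) := by
        apply Real.exp_le_exp.2
        have := hsumS j hj
        linarith
      have h2 : ((1 : ℝ) / 2) ^ (2 * (B + j) + 1) = (1 / 4) ^ B * (1 / 2) ^ (2 * j + 1) := by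
        rw [show (1 / 4 : ℝ) = (1 / 2) ^ 2 by norm_num, ← pow_mul, ← pow_add]
        congr 1
        ring
      have h3 : ((1 : ℝ) / 2) ^ (2 * j + 1) ≤ (1 / 2) ^ (j + 1) :=
        pow_le_pow_of_le_one (by norm_num) (by norm_num) (by omega)
      calc ((1 : ℝ) / 2) ^ (2 * (B + j) + 1) * Real.exp (2 * ∑ p ∈ PB w z j, u p)
          ≤ ((1 / 4) ^ B * (1 / 2) ^ (j + 1)) * Real.exp (2 * S) := by
            rw [h2]
            apply mul_le_mul _ h1 (Real.exp_pos _).le (by positivity)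
            exact mul_le_mul_of_nonneg_left h3 (by positivity)
        _ = v * e j := by
            rw [he, hF]
            field_simp)
    he0
  obtain ⟨⟨b1, b2⟩, b3, b4, b5⟩ := hbd
  obtain ⟨K, hK⟩ : ∃ K, K = gK (PB w z) (fun j => 2 * (B + j)) u z ∅ := ⟨_, rfl⟩
  have hprod : ∏ p ∈ (Ioc w z).filter Nat.Prime, (1 - (rho T p : ℝ) / p) ≤ K := by
    rw [hK]
    refine le_trans (le_of_eq ?_) b1
    rw [← PB_cover]
    unfold PP
    rw [prod_biUnion]
    intro i _ j _ hij
    exact PB_disj w z i j hij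
  rw [← hK] at b2 b3 b4 b5
  refine ⟨gK (PB w z) (fun j => 2 * (B + j)) u z, gL (PB w z) (fun j => 2 * (B + j)) u z, ?_, ?_, ?_,
    ?_, ?_, ?_, ?_⟩
  · rw [← hK]; exact b2
  · rw [← hK]; exact hprod
  · rw [← hK]
    refine le_trans ?_ b4
    apply mul_le_mul_of_nonneg_left _ b2.le
    linarith
  · intro q hq
    rw [← PB_cover] at hq
    rw [← hK]
    exact b3 q hq
  · intro q hq
    rw [← PB_cover] at hq
    rw [← hK]
    refine (b5 q hq).trans ?_
    have h1 : 0 ≤ K * C ^ q.card := mul_nonneg b2.le (by positivity)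
    have h2 : 1 + ∑ j ∈ range z, e j ≤ 2 := by linarith
    calc K * C ^ q.card * (1 + ∑ j ∈ range z, e j) ≤ K * C ^ q.card * 2 :=
          mul_le_mul_of_nonneg_left h2 h1
      _ = _ := by ring
  · intro q hq hne
    rw [← PB_cover] at hq
    rcases hne with hne | hne
    · exact level w z B z hz q hq (gK_support u z q hne)
    · exact level w z B z hz q hq (gL_support u z q hne)
  · intro n
    rw [← PB_cover, ← LL_expand (PB_disj w z), ← KK_expand (PB_disj w z)]
    obtain ⟨h1, h1'⟩ := (LL_le (P := PB w z) (b := fun j => 2 * (B + j)) (fun j => even_two_mul _)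
      (fun p => if T p n then 1 else 0) z (fun p _ => by
        by_cases h : T p n
        · right; simp [h]
        · left; simp [h]))
    have hI : ∏ j ∈ range z, ∏ p ∈ PB w z j, (1 - (if T p n then (1 : ℝ) else 0)) =
        if Sft T w z n then 1 else 0 := by
      by_cases h : Sft T w z n
      · rw [if_pos h]
        apply prod_eq_one
        intro j hj
        apply prod_eq_one
        intro p hp
        have h2 := hmem j (mem_range.1 hj) p hp
        have h3 : ¬ T p n := by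
          apply h p (hprime p h2) (hwp p h2)
          rw [PB_cover, mem_filter, mem_Ioc] at h2
          exact h2.1.2
        rw [if_neg h3, sub_zero]
      · rw [if_neg h]
        unfold Sft at h
        push Not at h
        obtain ⟨p, hp, hp1, hp2, hp3⟩ := h
        have h2 : p ∈ PP (PB w z) z := by
          rw [PB_cover, mem_filter, mem_Ioc]
          exact ⟨⟨hp1, hp2⟩, hp⟩
        obtain ⟨j, hj, hpj⟩ := mem_biUnion.1 h2
        apply prod_eq_zero hj
        apply prod_eq_zero hpj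
        simp [hp3]
    rw [hI] at h1 h1'
    exact ⟨h1, h1'⟩

end Pool.Agent.H14.P3
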