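import Pool.Agent.H14.P3.Comb
import Pool.Agent.H14.P3.Pairs
import Pool.Graph.R_seed8.Y882.SI.Sq
import Pool.Graph.R_seed8.Y882.KW.Num

/-!
# The sifting condition for the differences in a residue class (helper14)
-/

set_option autoImplicit false
set_option linter.unusedSectionVars false
set_option linter.deprecated false

namespace Pool.Agent.H14.P3

open Finset Pool.Agent.H14.SK Pool.Agent.Y882.SI Pool.Agent.Y882.PX

/-- the sifting condition for the differences divided by `W`, shifted by `h` -/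
def TQ (h : ℤ) (W p : ℕ) (n : ℤ) : Prop := (p : ℤ) ∣ (h + (W : ℤ) * n) ^ 2 + 1

instance (h : ℤ) (W p : ℕ) (n : ℤ) : Decidable (TQ h W p n) := by unfold TQ; infer_instance

lemma sq_per (p : ℕ) (n m : ℤ) (h : (p : ℤ) ∣ n - m) : (p : ℤ) ∣ n ^ 2 + 1 ↔ (p : ℤ) ∣ m ^ 2 + 1 := by
  have h1 : n ^ 2 + 1 - (m ^ 2 + 1) = (n - m) * (n + m) := by ring
  have h2 : (p : ℤ) ∣ n ^ 2 + 1 - (m ^ 2 + 1) := by
    rw [h1]
    exact h.mul_right _
  constructor
  · intro h3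
    have := dvd_sub h3 h2
    rwa [sub_sub_cancel] at this
  · intro h3
    have := dvd_add h2 h3
    rwa [sub_add_cancel] at this

lemma TQ_per (h : ℤ) (W p : ℕ) (n m : ℤ) (hnm : (p : ℤ) ∣ n - m) : TQ h W p n ↔ TQ h W p m := by
  unfold TQ
  apply sq_per
  have e : h + (W : ℤ) * n - (h + W * m) = W * (n - m) := by ring
  rw [e]
  exact hnm.mul_left _

lemma cnt_le (p : ℕ) (hp : p.Prime) (h : ℤ) (V : ℕ) (hV : ¬ p ∣ V) (P : ℤ → Prop) [DecidablePred P]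
    (hP : ∀ n m : ℤ, (p : ℤ) ∣ n - m → (P n ↔ P m)) :
    ((range p).filter (fun r : ℕ => P (h + (V : ℤ) * r))).card ≤
      ((range p).filter (fun s : ℕ => P (s : ℤ))).card := by
  have hp0 : (0 : ℤ) < p := by exact_mod_cast hp.pos
  have key : ∀ x : ℤ, (((x % (p : ℤ)).toNat : ℕ) : ℤ) = x % p := fun x =>
    Int.toNat_of_nonneg (Int.emod_nonneg _ hp0.ne')
  apply card_le_card_of_injOn (fun r : ℕ => ((h + (V : ℤ) * (r : ℤ)) % (p : ℤ)).toNat)
  · intro r hr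
    simp only [coe_filter, Set.mem_setOf_eq, mem_range] at hr ⊢
    refine ⟨?_, ?_⟩
    · have h1 := Int.emod_lt_of_pos (h + (V : ℤ) * r) hp0
      rw [← key] at h1
      exact_mod_cast h1
    · refine (hP _ _ ?_).1 hr.2
      rw [key]
      exact Int.dvd_self_sub_emod
  · intro r hr r' hr' hrr
    simp only [coe_filter, Set.mem_setOf_eq, mem_range] at hr hr'
    have hco : Nat.Coprime p V := (Nat.Prime.coprime_iff_not_dvd hp).2 hV
    have h1 : (h + (V : ℤ) * r) % (p : ℤ) = (h + (V : ℤ) * r') % (p : ℤ) := by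
      have h0 : ((h + (V : ℤ) * r) % (p : ℤ)).toNat = ((h + (V : ℤ) * r') % (p : ℤ)).toNat := hrr
      rw [← key (h + (V : ℤ) * r), ← key (h + (V : ℤ) * r'), h0]
    have h2 : h + (V : ℤ) * r ≡ h + (V : ℤ) * r' [ZMOD p] := h1
    have h3 := Int.ModEq.add_left_cancel' h h2
    have h4 : ((V * r : ℕ) : ℤ) ≡ ((V * r' : ℕ) : ℤ) [ZMOD (p : ℕ)] := by
      push_cast
      exact h3
    have h5 : V * r ≡ V * r' [MOD p] := Int.natCast_modEq_iff.1 h4
    have h6 : r ≡ r' [MOD p] := Nat.ModEq.cancel_left_of_coprime hco h5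
    exact Nat.ModEq.eq_of_lt_of_lt h6 hr.1 hr'.1

lemma rho_eq_card (h : ℤ) (W p : ℕ) :
    rho (TQ h W) p = ((range p).filter (fun r : ℕ => (p : ℤ) ∣ (h + (W : ℤ) * r) ^ 2 + 1)).card := by
  unfold rho TQ
  rfl

lemma ro_one (p : ℕ) : ro (QF 1) 0 p = ((range p).filter (fun r : ℕ => (p : ℤ) ∣ (r : ℤ) ^ 2 + 1)).card := by
  rw [ro_eq]
  congr 1
  apply filter_congr
  intro r _
  rw [QF_eval, add_zero]

lemma rho_le_ro (h : ℤ) (W p : ℕ) (hp : p.Prime) (hW : ¬ p ∣ W) : rho (TQ h W) p ≤ ro (QF 1) 0 p := by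
  rw [rho_eq_card, ro_one]
  exact cnt_le p hp h W hW (fun n => (p : ℤ) ∣ n ^ 2 + 1) (sq_per p)

lemma ro_le_rho (h : ℤ) (W p : ℕ) (hp : p.Prime) (hW : ¬ p ∣ W) : ro (QF 1) 0 p ≤ rho (TQ h W) p := by
  rw [rho_eq_card, ro_one]
  have hco : Nat.Coprime W p := ((Nat.Prime.coprime_iff_not_dvd hp).2 hW).symm
  obtain ⟨V, hV⟩ : ∃ V : ℕ, W * V ≡ 1 [MOD p] := by
    obtain ⟨V, hV⟩ := Nat.exists_mul_mod_eq_one_of_coprime hco hp.one_lt
    refine ⟨V, ?_⟩
    have h2 := hV.2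
    unfold Nat.ModEq
    rw [h2, Nat.mod_eq_of_lt hp.one_lt]
  have hVp : ¬ p ∣ V := by
    intro h
    have h1 : W * V ≡ 0 [MOD p] := (Nat.modEq_zero_iff_dvd).2 (h.mul_left W)
    have h2 := h1.symm.trans hV
    have h3 := (Nat.modEq_iff_dvd' (by norm_num : 0 ≤ 1)).1 h2
    have := Nat.le_of_dvd (by norm_num) h3
    have := hp.two_le
    omega
  have hc := cnt_le p hp (-(V * h)) V hVp (fun n => (p : ℤ) ∣ (h + (W : ℤ) * n) ^ 2 + 1) (by
    intro n m hnm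
    apply sq_per
    have e : h + (W : ℤ) * n - (h + W * m) = W * (n - m) := by ring
    rw [e]
    exact hnm.mul_left _)
  have e : (range p).filter (fun r : ℕ => (p : ℤ) ∣ (h + (W : ℤ) * (-(V * h) + (V : ℤ) * r)) ^ 2 + 1) =
      (range p).filter (fun r : ℕ => (p : ℤ) ∣ (r : ℤ) ^ 2 + 1) := by
    apply filter_congr
    intro r _
    apply sq_per
    have h1 : ((1 : ℕ) : ℤ) ≡ ((W * V : ℕ) : ℤ) [ZMOD p] := (Int.natCast_modEq_iff.2 hV).symm
    have h2 := h1.dvd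
    have e2 : h + (W : ℤ) * (-(V * h) + (V : ℤ) * r) - r = (((W * V : ℕ) : ℤ) - ((1 : ℕ) : ℤ)) * (r - h) := by
      push_cast
      ring
    rw [e2]
    exact h2.mul_right _
  calc ((range p).filter (fun r : ℕ => (p : ℤ) ∣ (r : ℤ) ^ 2 + 1)).card
      = ((range p).filter (fun r : ℕ => (p : ℤ) ∣ (h + (W : ℤ) * (-(V * h) + (V : ℤ) * r)) ^ 2 + 1)).card := by
        rw [e]
    _ ≤ _ := hc

lemma rho_eq (h : ℤ) (W p : ℕ) (hp : p.Prime) (hW : ¬ p ∣ W) : rho (TQ h W) p = ro (QF 1) 0 p :=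
  le_antisymm (rho_le_ro h W p hp hW) (ro_le_rho h W p hp hW)

lemma rho_zero (h : ℤ) (W p : ℕ) (hW : p ∣ W) (hh : ¬ (p : ℤ) ∣ h ^ 2 + 1) : rho (TQ h W) p = 0 := by
  rw [rho_eq_card, card_eq_zero, filter_eq_empty_iff]
  rintro r _ hd
  apply hh
  refine (sq_per p _ _ ?_).1 hd
  rw [add_sub_cancel_left]
  exact (Int.natCast_dvd_natCast.2 hW).mul_right _

lemma rho_le_ro' (h : ℤ) (W p : ℕ) (hp : p.Prime) (hh : p ∣ W → ¬ (p : ℤ) ∣ h ^ 2 + 1) :
    rho (TQ h W) p ≤ ro (QF 1) 0 p := by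
  by_cases hpW : p ∣ W
  · rw [rho_zero h W p hpW (hh hpW)]
    exact Nat.zero_le _
  · exact rho_le_ro h W p hp hpW

lemma rho_le_two (h : ℤ) (W p : ℕ) (hp : p.Prime) (hh : p ∣ W → ¬ (p : ℤ) ∣ h ^ 2 + 1) :
    rho (TQ h W) p ≤ 2 :=
  (rho_le_ro' h W p hp hh).trans (ro_quad_le 1 p hp)

lemma not_sq : ¬ IsSquare (-1 : ℤ) := by
  rintro ⟨x, hx⟩
  nlinarith [mul_self_nonneg x]

/-- the density of the small primes -/
lemma prod_low : ∃ c : ℝ, 0 < c ∧ ∀ (a : ℤ) (W w z N : ℕ),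
    (∀ p : ℕ, p.Prime → p ∣ W → ¬ (p : ℤ) ∣ a ^ 2 + 1) → 3 ≤ N → z ≤ N →
    c / Real.log N ≤ ∏ p ∈ (Ioc w z).filter Nat.Prime, (1 - (rho (TQ a W) p : ℝ) / p) := by
  obtain ⟨c, hc, h⟩ := lo_quad 1 not_sq
  refine ⟨c, hc, ?_⟩
  intro a W w z N hh hN hz
  refine (h N hN).trans ?_
  unfold lo
  have hsub : (Ioc w z).filter Nat.Prime ⊆ (Icc 1 N).filter Nat.Prime := by
    intro p hp
    rw [mem_filter, mem_Ioc] at hp
    rw [mem_filter, mem_Icc]
    exact ⟨⟨by omega, by omega⟩, hp.2⟩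
  have h01 : ∀ p : ℕ, p.Prime → 0 ≤ 1 - (ro (QF 1) 0 p : ℝ) / p ∧ 1 - (ro (QF 1) 0 p : ℝ) / p ≤ 1 := by
    intro p hpp
    have hp0 : (0 : ℝ) < p := by exact_mod_cast hpp.pos
    have h1 : (ro (QF 1) 0 p : ℝ) ≤ p := by exact_mod_cast ro_le_self (QF 1) 0 p
    constructor
    · rw [sub_nonneg, div_le_one hp0]
      exact h1
    · have : 0 ≤ (ro (QF 1) 0 p : ℝ) / p := by positivity
      linarith
  rw [← prod_sdiff hsub]
  calc (∏ p ∈ (Icc 1 N).filter Nat.Prime \ (Ioc w z).filter Nat.Prime, (1 - (ro (QF 1) 0 p : ℝ) / p)) *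
      ∏ p ∈ (Ioc w z).filter Nat.Prime, (1 - (ro (QF 1) 0 p : ℝ) / p) ≤
      1 * ∏ p ∈ (Ioc w z).filter Nat.Prime, (1 - (ro (QF 1) 0 p : ℝ) / p) := by
        apply mul_le_mul_of_nonneg_right
        · apply prod_le_one
          · intro p hp
            exact (h01 p (mem_filter.1 (mem_sdiff.1 hp).1).2).1
          · intro p hp
            exact (h01 p (mem_filter.1 (mem_sdiff.1 hp).1).2).2
        · exact prod_nonneg fun p hp => (h01 p (mem_filter.1 hp).2).1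
    _ = ∏ p ∈ (Ioc w z).filter Nat.Prime, (1 - (ro (QF 1) 0 p : ℝ) / p) := one_mul _
    _ ≤ _ := by
        apply prod_le_prod
        · intro p hp
          exact (h01 p (mem_filter.1 hp).2).1
        · intro p hp
          have hpp := (mem_filter.1 hp).2
          have h3 : (rho (TQ a W) p : ℝ) ≤ ro (QF 1) 0 p := by
            exact_mod_cast rho_le_ro' a W p hpp (hh p hpp)
          have h4 : (rho (TQ a W) p : ℝ) / p ≤ (ro (QF 1) 0 p : ℝ) / p :=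
            div_le_div_of_nonneg_right h3 (by positivity)
          linarith

end Pool.Agent.H14.P3
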